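import Pool.Agent.H31.EH.Targets
import Pool.Agent.H31.EST.RIP
import Pool.Agent.H24.CL.Base

/-!
# Row LON of ehf_modules (MP_e21eee_nt): stars in light columns are rare
-/

set_option autoImplicit false

open Finset MeasureTheory

namespace Pool.Agent.H62.EH

open Pool.Agent.H24.CL Pool.Agent.H24.LV Pool.Agent.H26.ES Pool.Agent.H31.EH Pool.Agent.H84.LVP

theorem sum_cells (D1 D2 : ℕ) (h1 : 1 ≤ D1) (g : ℕ → ℝ) :
    ∑ x ∈ range (D1 * D2), g x = ∑ y ∈ range D1, ∑ z ∈ range D2, g (y + D1 * z) := by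
  rw [← Finset.sum_product']
  refine Finset.sum_nbij' (fun x => (x % D1, x / D1)) (fun p => p.1 + D1 * p.2) ?_ ?_ ?_ ?_ ?_
  · intro x hx
    rw [mem_range] at hx
    rw [mem_product, mem_range, mem_range]
    exact ⟨Nat.mod_lt _ h1, Nat.div_lt_of_lt_mul hx⟩
  · rintro ⟨y, z⟩ h
    rw [mem_product, mem_range, mem_range] at h
    rw [mem_range]
    obtain ⟨ha, hb⟩ := h
    calc y + D1 * z < D1 + D1 * z := by omega
      _ = D1 * (z + 1) := by ring
      _ ≤ D1 * D2 := Nat.mul_le_mul_left _ hb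
  · intro x _
    exact Nat.mod_add_div x D1
  · rintro ⟨y, z⟩ h
    rw [mem_product, mem_range, mem_range] at h
    obtain ⟨ha, hb⟩ := h
    have e1 : (y + D1 * z) % D1 = y := by
      rw [Nat.add_mul_mod_self_left, Nat.mod_eq_of_lt ha]
    have e2 : (y + D1 * z) / D1 = z := by
      rw [Nat.add_mul_div_left _ _ h1, Nat.div_eq_of_lt ha, zero_add]
    change ((y + D1 * z) % D1, (y + D1 * z) / D1) = (y, z)
    rw [e1, e2]
  · intro x _
    change g x = g (x % D1 + D1 * (x / D1))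
    rw [Nat.mod_add_div]

open Classical in
/-- fibre count -/
theorem fib_card {k D y : ℕ} (hD : 1 ≤ D) (T : X k → Prop)
    (h : ∀ κ ∈ Kr k D y, ∀ κ' ∈ Kr k D y, T κ → T κ' → κ - κ' ∈ H k D 1) :
    (((Kr k D y).filter T).card : ℝ) ≤ if ∃ κ ∈ Kr k D y, T κ then (D : ℝ) ^ k else 0 := by
  obtain ⟨-, hmem, hcard, -⟩ := rTO k D hD
  by_cases hex : ∃ κ ∈ Kr k D y, T κ
  · rw [if_pos hex]
    obtain ⟨κ0, hκ0, hT0⟩ := hex
    have hsub : (Kr k D y).filter T ⊆ (HF k D 1).image fun a => κ0 + a := by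
      intro κ hκ
      rw [mem_filter] at hκ
      rw [mem_image]
      refine ⟨κ - κ0, (hmem 1 _).2 (h κ hκ.1 κ0 hκ0 hκ.2 hT0), ?_⟩
      abel
    have h2 := (card_le_card hsub).trans card_image_le
    rw [hcard 1, one_mul] at h2
    exact_mod_cast h2
  · rw [if_neg hex]
    have h3 : (Kr k D y).filter T = ∅ := by
      rw [filter_eq_empty_iff]
      exact fun κ hκ hT => hex ⟨κ, hκ, hT⟩
    rw [h3]
    simp

open Classical in
/-- the positions of the column which carry a star of some direction with the property `T` -/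
noncomputable def col {k : ℕ} (D1 D2 y : ℕ) (T : X k → ℕ → Prop) (b : X k) : Finset ℕ :=
  (range D2).filter fun z => ∃ κ ∈ Kr k D1 y, T (b + κ) (y + D1 * z)

/-- the number of the light positions of a column -/
theorem col_le {k : ℕ} {S₁ S₂ : Finset ℕ} {V : Set (X k)} {Ge : ℕ → Set (X k)}
    {Gd : ℕ → ℕ → Set (X k)} {P m τ Ω kap kap' : ℝ} (hCOL : T_COL)
    (hdis : Disjoint S₁ S₂) (h : SDatP k (S₁ ∪ S₂) V Ge Gd P m τ Ω) (hk' : 0 < kap')
    {y : ℕ} (hy : y < DS S₁) (hD2 : 1 ≤ DS S₂) (b : X k) :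
    ((col (DS S₁) (DS S₂) y (Light S₁ S₂ V Gd kap kap') b).card : ℝ) ≤
      2 * kap' * DS S₂ * (if kap ≤ den S₂ V Gd (phi (DS S₁) y b) then 1 else 0) +
        DP S₁ S₂ V Gd b y / (kap' * DS S₂) := by
  classical
  obtain ⟨c1, c2, c3, c4⟩ := hCOL k S₁ S₂ V Ge Gd P m τ Ω hdis h
  have hD2r : (0 : ℝ) < DS S₂ := by exact_mod_cast hD2
  have hKr : ∀ κ ∈ Kr k (DS S₁) y, phi (DS S₁) y κ = 0 := by
    intro κ hκ
    unfold Kr at hκ
    rw [mem_filter] at hκ
    exact hκ.2
  have hmod : ∀ z, (y + DS S₁ * z) % DS S₁ = y := by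
    intro z
    rw [Nat.add_mul_mod_self_left, Nat.mod_eq_of_lt hy]
  have hdiv : ∀ z, (y + DS S₁ * z) / DS S₁ = z := by
    intro z
    rw [Nat.add_mul_div_left _ _ (by omega), Nat.div_eq_of_lt hy, zero_add]
  have hstar : ∀ (b' : X k) (x : ℕ), Two S₁ S₂ V Gd kap b' x → StarP (S₁ ∪ S₂) V Gd b' x := by
    intro b' x h2
    exact (c1 x b').2 ⟨h2.1.1, h2.2.1⟩
  have hDP0 : 0 ≤ DP S₁ S₂ V Gd b y := by
    unfold DP
    exact Nat.cast_nonneg _
  set r := col (DS S₁) (DS S₂) y (Light S₁ S₂ V Gd kap kap') b with hr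
  set N := col (DS S₁) (DS S₂) y (Two S₁ S₂ V Gd kap) b with hN
  have hrN : r ⊆ N := by
    intro z hz
    rw [hr, col, mem_filter] at hz
    rw [hN, col, mem_filter]
    obtain ⟨hz1, κ, hκ, hL⟩ := hz
    exact ⟨hz1, κ, hκ, hL.1⟩
  have hrNc : (r.card : ℝ) ≤ N.card := by exact_mod_cast card_le_card hrN
  have hi0 : (0 : ℝ) ≤ if kap ≤ den S₂ V Gd (phi (DS S₁) y b) then (1 : ℝ) else 0 := by
    split_ifs <;> norm_num
  by_cases hcase : (N.card : ℝ) < 2 * kap' * DS S₂
  · -- few directions altogether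
    rcases r.eq_empty_or_nonempty with h0 | ⟨z, hz⟩
    · rw [h0]
      simp only [card_empty, Nat.cast_zero]
      positivity
    · rw [hr, col, mem_filter] at hz
      obtain ⟨hz1, κ, hκ, hL⟩ := hz
      have hg := hL.1.2
      rw [hmod, hdiv] at hg
      have hg2 := hg.2 S₂ (Subset.refl _)
      rw [Nat.div_self hD2, Nat.mod_one, phi_one, map_add, hKr κ hκ, add_zero] at hg2
      rw [if_pos hg2, mul_one]
      have : 0 ≤ DP S₁ S₂ V Gd b y / (kap' * DS S₂) := by positivity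
      linarith
  · -- many positions: each light one has many partners of a different direction
    push Not at hcase
    have hDP : (r.card : ℝ) * (kap' * DS S₂) ≤ DP S₁ S₂ V Gd b y := by
      unfold DP
      have hfib : ∀ z ∈ r, kap' * DS S₂ ≤ (((range (DS S₂)).filter fun z' => ∃ κ ∈ Kr k (DS S₁) y,
          ∃ κ' ∈ Kr k (DS S₁) y, κ - κ' ∉ H k (DS S₁) 1 ∧
          StarP (S₁ ∪ S₂) V Gd (b + κ) (y + DS S₁ * z) ∧
          StarP (S₁ ∪ S₂) V Gd (b + κ') (y + DS S₁ * z')).card : ℝ) := by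
        intro z hz
        rw [hr, col, mem_filter] at hz
        obtain ⟨hz1, κ, hκ, hL⟩ := hz
        have hL2 := hL.2
        rw [hmod] at hL2
        set B := (range (DS S₂)).filter fun z' => Two S₁ S₂ V Gd kap (b + κ) (y + DS S₁ * z')
          with hB
        have hsub : N \ B ⊆ (range (DS S₂)).filter fun z' => ∃ κ ∈ Kr k (DS S₁) y,
          ∃ κ' ∈ Kr k (DS S₁) y, κ - κ' ∉ H k (DS S₁) 1 ∧
          StarP (S₁ ∪ S₂) V Gd (b + κ) (y + DS S₁ * z) ∧
          StarP (S₁ ∪ S₂) V Gd (b + κ') (y + DS S₁ * z') := by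
          intro z' hz'
          rw [mem_sdiff] at hz'
          obtain ⟨ha, hb⟩ := hz'
          rw [hN, col, mem_filter] at ha
          obtain ⟨ha1, κ1, hκ1, hT⟩ := ha
          rw [mem_filter]
          refine ⟨ha1, κ, hκ, κ1, hκ1, ?_, hstar _ _ hL.1, hstar _ _ hT⟩
          intro hH
          apply hb
          rw [hB, mem_filter]
          refine ⟨ha1, ?_⟩
          have h5 := c4 kap (y + DS S₁ * z') (b + κ1) (κ - κ1) hH hT
          have h6 : b + κ1 + (κ - κ1) = b + κ := by abel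
          rwa [h6] at h5
        have h7 : (N.card : ℝ) ≤ (N \ B).card + B.card := by
          have := card_le_card_sdiff_add_card (s := N) (t := B)
          exact_mod_cast this
        have h8 := (Nat.cast_le (α := ℝ)).2 (card_le_card hsub)
        linarith
      have hle : ∑ z ∈ r, (((range (DS S₂)).filter fun z' => ∃ κ ∈ Kr k (DS S₁) y,
          ∃ κ' ∈ Kr k (DS S₁) y, κ - κ' ∉ H k (DS S₁) 1 ∧
          StarP (S₁ ∪ S₂) V Gd (b + κ) (y + DS S₁ * z) ∧
          StarP (S₁ ∪ S₂) V Gd (b + κ') (y + DS S₁ * z')).card : ℝ) ≤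
          (((range (DS S₂) ×ˢ range (DS S₂)).filter fun z => ∃ κ ∈ Kr k (DS S₁) y,
            ∃ κ' ∈ Kr k (DS S₁) y, κ - κ' ∉ H k (DS S₁) 1 ∧
            StarP (S₁ ∪ S₂) V Gd (b + κ) (y + DS S₁ * z.1) ∧
            StarP (S₁ ∪ S₂) V Gd (b + κ') (y + DS S₁ * z.2)).card : ℝ) := by
        rw [← Nat.cast_sum, Nat.cast_le]
        rw [card_filter, sum_product]
        have hr2 : r ⊆ range (DS S₂) := by
          rw [hr, col]
          exact filter_subset _ _
        refine le_trans (le_of_eq ?_) (sum_le_sum_of_subset hr2)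
        refine sum_congr rfl fun z _ => ?_
        rw [card_filter]
      refine le_trans ?_ hle
      rw [← nsmul_eq_mul]
      exact card_nsmul_le_sum _ _ _ hfib
    have h9 : (r.card : ℝ) ≤ DP S₁ S₂ V Gd b y / (kap' * DS S₂) := by
      rw [le_div_iff₀ (by positivity)]
      exact hDP
    have h10 : 0 ≤ 2 * kap' * DS S₂ *
        (if kap ≤ den S₂ V Gd (phi (DS S₁) y b) then (1 : ℝ) else 0) := by positivity
    linarith

open Classical in
/-- the sum over the directions and the positions -/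
theorem point {k : ℕ} {S₁ S₂ : Finset ℕ} {V : Set (X k)} {Ge : ℕ → Set (X k)}
    {Gd : ℕ → ℕ → Set (X k)} {P m τ Ω kap kap' : ℝ} (hCOL : T_COL)
    (hdis : Disjoint S₁ S₂) (h : SDatP k (S₁ ∪ S₂) V Ge Gd P m τ Ω) (hk' : 0 < kap')
    {y : ℕ} (hy : y < DS S₁) (hD2 : 1 ≤ DS S₂) (b : X k) :
    ∑ κ ∈ Kr k (DS S₁) y, ∑ z ∈ range (DS S₂),
        (if Light S₁ S₂ V Gd kap kap' (b + κ) (y + DS S₁ * z) then (1 : ℝ) else 0) ≤
      (DS S₁ : ℝ) ^ k * (2 * kap' * DS S₂ *
        (if kap ≤ den S₂ V Gd (phi (DS S₁) y b) then 1 else 0) +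
        DP S₁ S₂ V Gd b y / (kap' * DS S₂)) := by
  obtain ⟨c1, c2, c3, c4⟩ := hCOL k S₁ S₂ V Ge Gd P m τ Ω hdis h
  have h1 := col_le (kap := kap) hCOL hdis h hk' hy hD2 b
  rw [sum_comm]
  have h2 : ∀ z ∈ range (DS S₂), ∑ κ ∈ Kr k (DS S₁) y,
      (if Light S₁ S₂ V Gd kap kap' (b + κ) (y + DS S₁ * z) then (1 : ℝ) else 0) ≤
      (DS S₁ : ℝ) ^ k * (if ∃ κ ∈ Kr k (DS S₁) y,
        Light S₁ S₂ V Gd kap kap' (b + κ) (y + DS S₁ * z) then (1 : ℝ) else 0) := by
    intro z hz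
    rw [mem_range] at hz
    have h3 := fib_card (k := k) (D := DS S₁) (y := y) (by omega)
      (fun κ => Light S₁ S₂ V Gd kap kap' (b + κ) (y + DS S₁ * z)) (by
        intro κ hκ κ' hκ' hL hL'
        exact c2 y hy z hz b κ hκ κ' hκ' ((c1 _ _).2 ⟨hL.1.1.1, hL.1.2.1⟩)
          ((c1 _ _).2 ⟨hL'.1.1.1, hL'.1.2.1⟩))
    rw [← sum_filter, sum_const, nsmul_eq_mul, mul_one]
    refine h3.trans (le_of_eq ?_)
    split_ifs <;> simp
  refine (sum_le_sum h2).trans ?_
  rw [← mul_sum]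
  refine mul_le_mul_of_nonneg_left ?_ (by positivity)
  rw [← sum_filter, sum_const, nsmul_eq_mul, mul_one]
  exact h1

open Classical in
theorem pf_LON (hMP : T_MP) (hCO : L_CO) (hAI : L_AI) (hCOL : T_COL) (hMEA : T_MEA)
    (hMAS : T_MAS) : T_LON := by
  intro k Q V Ge Gd P m τ Ω kap kap' hdat hk hk' S₁ hS₁ S₂ hS₂ hdis
  have h := Pool.Agent.H31.EST.SDatP_mono hdat.dat (union_subset hS₁ hS₂)
  have hsw : SDatP k (S₂ ∪ S₁) V Ge Gd P m τ Ω := by rw [union_comm]; exact h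
  obtain ⟨-, -, -, -, m5, m6, -, -, -, m10, -, -⟩ := hMEA k S₁ S₂ V Ge Gd P m τ Ω h
  obtain ⟨-, n2, -⟩ := hMEA k S₂ S₁ V Ge Gd P m τ Ω hsw
  obtain ⟨-, hmas, -⟩ := hMAS k Q V Ge Gd P m τ Ω hdat S₂ hS₂
  have hmas := hmas kap hk
  have hp1 : ∀ p ∈ S₁, p.Prime := fun p hp => (h.pr p (mem_union_left _ hp)).1
  have hp2 : ∀ p ∈ S₂, p.Prime := fun p hp => (h.pr p (mem_union_right _ hp)).1
  have hD1 := DS_pos hp1
  have hD2 := DS_pos hp2
  have hD1r : (0 : ℝ) < DS S₁ := by exact_mod_cast hD1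
  have hD2r : (0 : ℝ) < DS S₂ := by exact_mod_cast hD2
  have hDS : DS (S₁ ∪ S₂) = DS S₁ * DS S₂ := by
    unfold DS
    exact prod_union hdis
  have hKk : k ≤ KN k := by
    unfold KN
    have := h.hk
    rw [Nat.le_div_iff_mul_le (by norm_num)]
    nlinarith
  set v := volume.real {c : X k | kap ≤ den S₂ V Gd c} with hv
  -- one column
  have hcol : ∀ y ∈ range (DS S₁), ∑ z ∈ range (DS S₂),
      volume.real {b : X k | Light S₁ S₂ V Gd kap kap' b (y + DS S₁ * z)} ≤
      1 / (DS S₁ : ℝ) ^ (KN k - k) * (2 * kap' * DS S₂ * v +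
        (∫ b : X k, DP S₁ S₂ V Gd b y) / (kap' * DS S₂)) := by
    intro y hy
    rw [mem_range] at hy
    set F : X k → ℝ := fun b => ∑ z ∈ range (DS S₂),
      (if Light S₁ S₂ V Gd kap kap' b (y + DS S₁ * z) then (1 : ℝ) else 0) with hF
    have hFm : Measurable F := by
      refine Finset.measurable_sum _ fun z _ => ?_
      exact Measurable.ite (m5 kap kap' _) measurable_const measurable_const
    have hFb : ∀ a, |F a| ≤ DS S₂ := by
      intro a
      rw [hF]
      have h0 : 0 ≤ ∑ z ∈ range (DS S₂),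
          (if Light S₁ S₂ V Gd kap kap' a (y + DS S₁ * z) then (1 : ℝ) else 0) :=
        sum_nonneg fun z _ => by split_ifs <;> norm_num
      rw [abs_of_nonneg h0]
      calc ∑ z ∈ range (DS S₂),
          (if Light S₁ S₂ V Gd kap kap' a (y + DS S₁ * z) then (1 : ℝ) else 0) ≤
          ∑ z ∈ range (DS S₂), (1 : ℝ) := sum_le_sum fun z _ => by split_ifs <;> norm_num
        _ = DS S₂ := by simp
    have hint : ∀ z, Integrable fun b : X k =>
        (if Light S₁ S₂ V Gd kap kap' b (y + DS S₁ * z) then (1 : ℝ) else 0) := by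
      intro z
      refine Integrable.of_bound (C := 1)
        (Measurable.ite (m5 kap kap' _) measurable_const measurable_const).aestronglyMeasurable ?_
      refine Filter.Eventually.of_forall fun b => ?_
      split_ifs <;> simp
    have e1 : ∑ z ∈ range (DS S₂),
        volume.real {b : X k | Light S₁ S₂ V Gd kap kap' b (y + DS S₁ * z)} = ∫ b, F b := by
      rw [hF, integral_finsetSum _ fun z _ => hint z]
      refine sum_congr rfl fun z _ => ?_
      have h1 : (fun b : X k => if Light S₁ S₂ V Gd kap kap' b (y + DS S₁ * z) then (1 : ℝ) else 0) =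
          Set.indicator {b : X k | Light S₁ S₂ V Gd kap kap' b (y + DS S₁ * z)} 1 := by
        funext b
        simp only [Set.indicator_apply, Pi.one_apply]
        rfl
      rw [h1, integral_indicator_one (m5 kap kap' _)]
    have hKc := (hCO.2.2.2.1 k (DS S₁) y hD1).1
    have hKn : (Kr k (DS S₁) y).Nonempty := by
      rw [← card_pos, hKc]
      positivity
    have e2 := hAI k (Kr k (DS S₁) y) F (DS S₂) hKn hFm hFb
    rw [e1, e2, hKc]
    -- the integrand
    have hmp := (hMP k (DS S₁) y hD1).2.2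
    have hiM : Measurable fun b : X k =>
        (if kap ≤ den S₂ V Gd (phi (DS S₁) y b) then (1 : ℝ) else 0) :=
      Measurable.ite (hmp.measurable (measurableSet_le measurable_const n2)) measurable_const
        measurable_const
    have hi1 : Integrable fun b : X k =>
        (if kap ≤ den S₂ V Gd (phi (DS S₁) y b) then (1 : ℝ) else 0) := by
      refine Integrable.of_bound (C := 1) hiM.aestronglyMeasurable ?_
      refine Filter.Eventually.of_forall fun b => ?_
      split_ifs <;> simp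
    have hi2 : Integrable fun b : X k => DP S₁ S₂ V Gd b y := by
      refine Integrable.of_bound (C := (DS S₂ : ℝ) ^ 2) (m6 y).aestronglyMeasurable ?_
      refine Filter.Eventually.of_forall fun b => ?_
      rw [Real.norm_eq_abs, abs_of_nonneg (m10 b y).1]
      exact (m10 b y).2
    have hi3 : Integrable fun b : X k => (DS S₁ : ℝ) ^ k * (2 * kap' * DS S₂ *
        (if kap ≤ den S₂ V Gd (phi (DS S₁) y b) then (1 : ℝ) else 0) +
        DP S₁ S₂ V Gd b y / (kap' * DS S₂)) :=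
      ((hi1.const_mul _).add (hi2.div_const _)).const_mul _
    have hiF : Integrable fun a : X k => ∑ κ ∈ Kr k (DS S₁) y, F (a + κ) := by
      refine integrable_finsetSum _ fun κ _ => ?_
      refine Integrable.of_bound (C := (DS S₂ : ℝ))
        (hFm.comp (measurable_id.add_const κ)).aestronglyMeasurable ?_
      refine Filter.Eventually.of_forall fun b => ?_
      rw [Real.norm_eq_abs]
      exact hFb _
    have e3 : ∫ a, ∑ κ ∈ Kr k (DS S₁) y, F (a + κ) ≤ ∫ b : X k, (DS S₁ : ℝ) ^ k *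
        (2 * kap' * DS S₂ * (if kap ≤ den S₂ V Gd (phi (DS S₁) y b) then (1 : ℝ) else 0) +
        DP S₁ S₂ V Gd b y / (kap' * DS S₂)) := by
      refine integral_mono hiF hi3 fun b => ?_
      exact point hCOL hdis h hk' hy hD2 b
    have e4 : ∫ b : X k, (if kap ≤ den S₂ V Gd (phi (DS S₁) y b) then (1 : ℝ) else 0) = v := by
      have h1 : (fun b : X k => if kap ≤ den S₂ V Gd (phi (DS S₁) y b) then (1 : ℝ) else 0) =
          Set.indicator ((phi (DS S₁) y) ⁻¹' {c : X k | kap ≤ den S₂ V Gd c}) 1 := by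
        funext b
        simp only [Set.indicator_apply, Pi.one_apply]
        rfl
      rw [h1, integral_indicator_one (hmp.measurable (measurableSet_le measurable_const n2)), hv]
      exact hmp.measureReal_preimage (measurableSet_le measurable_const n2).nullMeasurableSet
    have e5 : ∫ b : X k, (DS S₁ : ℝ) ^ k *
        (2 * kap' * DS S₂ * (if kap ≤ den S₂ V Gd (phi (DS S₁) y b) then (1 : ℝ) else 0) +
        DP S₁ S₂ V Gd b y / (kap' * DS S₂)) = (DS S₁ : ℝ) ^ k * (2 * kap' * DS S₂ * v +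
        (∫ b : X k, DP S₁ S₂ V Gd b y) / (kap' * DS S₂)) := by
      rw [integral_const_mul, integral_add (hi1.const_mul _) (hi2.div_const _),
        integral_const_mul, e4, integral_div]
    rw [e5] at e3
    have hpow : (DS S₁ : ℝ) ^ KN k = (DS S₁ : ℝ) ^ (KN k - k) * (DS S₁ : ℝ) ^ k := by
      rw [← pow_add]
      congr 1
      omega
    have e6 := mul_le_mul_of_nonneg_left e3 (by positivity : 0 ≤ 1 / (DS S₁ : ℝ) ^ KN k)
    push_cast
    refine e6.trans (le_of_eq ?_)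
    rw [hpow]
    field_simp
  -- all columns
  unfold mass
  rw [hDS, sum_cells _ _ hD1]
  have hsum := sum_le_sum hcol
  have hc0 : (0 : ℝ) ≤ ((DS S₁ * DS S₂ : ℕ) : ℝ) ^ (KN k - k) *
      (1 / ((DS S₁ * DS S₂ : ℕ) : ℝ)) := by positivity
  have hfin := mul_le_mul_of_nonneg_left hsum hc0
  rw [← mul_assoc]
  refine hfin.trans ?_
  have hJ : ∀ y, ∫ b : X k, DP S₁ S₂ V Gd b y / (DS S₂ : ℝ) ^ 2 =
      (∫ b : X k, DP S₁ S₂ V Gd b y) / (DS S₂ : ℝ) ^ 2 := fun y => integral_div _ _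
  have hPM : PM k S₁ S₂ V Gd = (DS S₂ : ℝ) ^ (KN k - k) * ((1 / (DS S₁ : ℝ)) *
      ((∑ y ∈ range (DS S₁), ∫ b : X k, DP S₁ S₂ V Gd b y) / (DS S₂ : ℝ) ^ 2)) := by
    unfold PM
    rw [sum_div]
    congr 2
    exact sum_congr rfl fun y _ => hJ y
  rw [hPM]
  set J := ∑ y ∈ range (DS S₁), ∫ b : X k, DP S₁ S₂ V Gd b y with hJd
  have hs2 : ∑ y ∈ range (DS S₁), 1 / (DS S₁ : ℝ) ^ (KN k - k) * (2 * kap' * DS S₂ * v +
        (∫ b : X k, DP S₁ S₂ V Gd b y) / (kap' * DS S₂)) =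
      1 / (DS S₁ : ℝ) ^ (KN k - k) * (DS S₁ * (2 * kap' * DS S₂ * v) +
        J / (kap' * DS S₂)) := by
    rw [← mul_sum, sum_add_distrib, sum_const, card_range, nsmul_eq_mul, ← sum_div]
  rw [hs2]
  have hfe : ((DS S₁ * DS S₂ : ℕ) : ℝ) ^ (KN k - k) * (1 / ((DS S₁ * DS S₂ : ℕ) : ℝ)) *
      (1 / (DS S₁ : ℝ) ^ (KN k - k) * (DS S₁ * (2 * kap' * DS S₂ * v) +
        J / (kap' * DS S₂))) =
      2 * kap' * ((DS S₂ : ℝ) ^ (KN k - k) * v) + (DS S₂ : ℝ) ^ (KN k - k) *
        ((1 / (DS S₁ : ℝ)) * (J / (DS S₂ : ℝ) ^ 2)) / kap' := by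
    push_cast
    rw [mul_pow]
    field_simp
  rw [hfe]
  have hl : 2 * kap' * ((DS S₂ : ℝ) ^ (KN k - k) * v) ≤ 2 * kap' * (Ω / kap) :=
    mul_le_mul_of_nonneg_left hmas (by positivity)
  have hl2 : 2 * kap' * (Ω / kap) = 2 * kap' / kap * Ω := by ring
  linarith

end Pool.Agent.H62.EH
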